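import Pool.Agent.Q324.DP.Main

/-!
# MP_dd7d0c_lc: recognition of down-posets in polynomial time
-/

namespace Pool.Agent.Results.MP_dd7d0c_lc.DownPosetsInP

open Pool.Agent.NPC Pool.Agent.Q324.DP

/-- The problem to decide whether a finite poset, given by the Boolean matrix of its order relation,
is a `↓`-poset, belongs to `P`. -/
theorem result : InPP (fun C : FinPoset => IsDownPoset C.le) := main

end Pool.Agent.Results.MP_dd7d0c_lc.DownPosetsInP
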